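import Pool.Agent.Y750.MY.D

/-!
# Markus-Yamabe for nonautonomous systems: exponential contraction of all pairs of solutions

`E` is a finite-dimensional real normed space. From `Pool.Agent.TH339.MY` we use

* `PiecewiseContinuous g`: off a set `D` which is finite in every bounded interval, `g` is
  continuous on `[0,∞)`, and all one-sided limits of `g` exist;
* `IsEvolution A T`: `T(t,s) v = v + ∫_s^t A(u) T(u,s) v du` with `t ↦ T(t,s) v` continuous;
* `IsSolution f t₀ x`: `x' = f(t,x)` on `[t₀,∞)`.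

Idea of the proof. The difference of two solutions `x`, `y` satisfies
`(x-y)' = (∫_0^1 Jf(t, y + r (x - y)) dr) (x - y)`. If `r` runs through `[0,1)` faster and faster one
obtains a piecewise continuous curve `ω` between `x` and `y` such that `T(t,t₀)⁻¹ (x(t) - y(t))` stays
near `x(t₀) - y(t₀)`, where `T` is the evolution operator of the linearization along `ω`. The constants are made uniform over balls by gluing pieces of curves which violate more
and more bounds; here one needs that solutions starting in a ball stay bounded in finite time.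
-/

set_option autoImplicit false

namespace Pool.Agent.Results.MP_1775bc_an.ExponentialContraction

open Set Filter Topology Pool.Agent.TH339.MY

variable {E : Type*} [NormedAddCommGroup E] [NormedSpace ℝ E]

/-- The system `x' = A(t) x`, with piecewise continuous `A`, has a nonuniform exponential
dichotomy on `[0,∞)` with the projections `P(t)`. -/
def HasDichotomy (A : ℝ → E →L[ℝ] E) (P : ℝ → E →L[ℝ] E) : Prop :=
  PiecewiseContinuous A ∧ ∃ T : ℝ → ℝ → E →L[ℝ] E, IsEvolution A T ∧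
    (∀ t, 0 ≤ t → P t ∘L P t = P t) ∧
    (∀ t s, 0 ≤ t → 0 ≤ s → T t s ∘L P s = P t ∘L T t s) ∧
    ∃ K γ ε : ℝ, 1 ≤ K ∧ 0 ≤ ε ∧ ε < γ ∧
      (∀ t s, 0 ≤ s → s ≤ t → ‖T t s ∘L P s‖ ≤ K * Real.exp (-γ * (t - s) + ε * s)) ∧
      (∀ t s, 0 ≤ t → t ≤ s →
        ‖T t s ∘L (ContinuousLinearMap.id ℝ E - P s)‖ ≤ K * Real.exp (-γ * (s - t) + ε * s))

/-- (G1): `f` is continuous on `[0,∞) × E`, `C¹` in `x`, and all forward solutions are global. -/
structure G1 (f : ℝ → E → E) : Prop where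
  continuousOn : ContinuousOn (Function.uncurry f) (Ici 0 ×ˢ univ)
  contDiff : ∀ t, 0 ≤ t → ContDiff ℝ 1 (f t)
  global : ∀ t₀, 0 ≤ t₀ → ∀ x₀, ∃ x : ℝ → E, x t₀ = x₀ ∧ IsSolution f t₀ x

/-- (G2): `f(t,0) = 0`. -/
def G2 (f : ℝ → E → E) : Prop := ∀ t, 0 ≤ t → f t 0 = 0

/-- (G3): for every piecewise continuous `ω`, the linear system `y' = Jf(t,ω(t)) y` has a
nonuniform exponential dichotomy with `P(t) = I` for all `t`. -/
def G3 (f : ℝ → E → E) : Prop :=
  ∀ ω : ℝ → E, PiecewiseContinuous ω →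
    HasDichotomy (fun t => fderiv ℝ (f t) (ω t)) (fun _ => ContinuousLinearMap.id ℝ E)

/-- Global nonuniform asymptotic stability of the origin. -/
def GloballyNonuniformlyAsymptoticallyStable (f : ℝ → E → E) : Prop :=
  ∀ t₀, 0 ≤ t₀ →
    (∀ η, 0 < η → ∃ δ, 0 < δ ∧
      ∀ x, IsSolution f t₀ x → ‖x t₀‖ < δ → ∀ t, t₀ ≤ t → ‖x t‖ < η) ∧
    (∀ x, IsSolution f t₀ x → Tendsto x atTop (𝓝 0))

/-- Nonuniform exponential contraction, uniform for initial values in a ball: for every `R` there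
are `K ≥ 1` and `0 ≤ ε < γ` with `‖x(t) - y(t)‖ ≤ K exp(-γ (t - s) + ε s) ‖x(s) - y(s)‖` for
all `t ≥ s ≥ 0` and all solutions `x`, `y` on `[s,∞)` with `‖x(s)‖, ‖y(s)‖ ≤ R`. -/
def ExponentiallyContracting (f : ℝ → E → E) : Prop :=
  ∀ R : ℝ, ∃ K γ ε : ℝ, 1 ≤ K ∧ 0 ≤ ε ∧ ε < γ ∧ ∀ s, 0 ≤ s → ∀ x y : ℝ → E,
    IsSolution f s x → IsSolution f s y → ‖x s‖ ≤ R → ‖y s‖ ≤ R → ∀ t, s ≤ t →
    ‖x t - y t‖ ≤ K * Real.exp (-γ * (t - s) + ε * s) * ‖x s - y s‖

lemma reg0 [FiniteDimensional ℝ E] {f : ℝ → E → E} (h1 : G1 f)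
    (h : ∀ ω : ℝ → E, PiecewiseContinuous ω →
      PiecewiseContinuous (fun t => fderiv ℝ (f t) (ω t))) : Y750.MY.Reg0 f := by
  have hcs : CompleteSpace E := FiniteDimensional.complete ℝ E
  have hpwc : ∀ ω : ℝ → E, Continuous ω → PiecewiseContinuous ω := by
    intro ω hω
    exact ⟨∅, by simp, fun t _ _ => hω.continuousWithinAt,
      fun t _ => ⟨ω t, (hω.tendsto t).mono_left nhdsWithin_le_nhds⟩,
      fun t _ => ⟨ω t, (hω.tendsto t).mono_left nhdsWithin_le_nhds⟩⟩
  refine ⟨h1.continuousOn, h1.contDiff, ?_, h⟩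
  apply jacobian_continuous h1.continuousOn h1.contDiff
  · intro ω hω t ht
    obtain ⟨D, -, -, hr, -⟩ := h ω (hpwc ω hω)
    exact hr t ht
  · intro ω hω t ht
    obtain ⟨D, -, -, -, hl⟩ := h ω (hpwc ω hω)
    exact hl t ht

lemma evolution_unique {A : ℝ → E →L[ℝ] E} (hA : PiecewiseContinuous A)
    {T T' : ℝ → ℝ → E →L[ℝ] E} (hT : IsEvolution A T) (hT' : IsEvolution A T') {t s : ℝ}
    (ht : 0 ≤ t) (hs : 0 ≤ s) : T t s = T' t s := by
  ext v
  exact (hT.iSol hA hs v).unique hA (hT'.iSol hA hs v) hs (by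
    simp only [hT.self hs, hT'.self hs]) ht

/-- **Stronger form of the nonuniform nonautonomous Markus-Yamabe conjecture.** (G1) and (G3) alone
imply that any two solutions contract exponentially, with constants which are uniform for initial
values in a ball and all initial times; with (G2) the trivial solution is globally nonuniformly
asymptotically stable. -/
theorem result (E : Type*) [NormedAddCommGroup E] [NormedSpace ℝ E] [FiniteDimensional ℝ E]
    (f : ℝ → E → E) (h1 : G1 f) (h3 : G3 f) :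
    ExponentiallyContracting f ∧ (G2 f → GloballyNonuniformlyAsymptoticallyStable f) := by
  have hreg := reg0 h1 fun ω hω => (h3 ω hω).1
  have hE : ∀ ω : ℝ → E, PiecewiseContinuous ω →
      ∃ T, IsEvolution (fun t => fderiv ℝ (f t) (ω t)) T := by
    intro ω hω
    obtain ⟨-, T, hT, -⟩ := h3 ω hω
    exact ⟨T, hT⟩
  have hG : ∀ ω : ℝ → E, PiecewiseContinuous ω → ∀ T,
      IsEvolution (fun t => fderiv ℝ (f t) (ω t)) T →
      ∃ K γ ε : ℝ, 1 ≤ K ∧ 0 ≤ ε ∧ ε < γ ∧
        ∀ t s, 0 ≤ s → s ≤ t → ‖T t s‖ ≤ K * Real.exp (-γ * (t - s) + ε * s) := by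
    intro ω hω T hT
    obtain ⟨hA, T', hT', -, -, K, γ, ε, hK, hε, hεγ, hb, -⟩ := h3 ω hω
    refine ⟨K, γ, ε, hK, hε, hεγ, fun t s hs hst => ?_⟩
    rw [evolution_unique hA hT hT' (hs.trans hst) hs]
    have := hb t s hs hst
    rwa [ContinuousLinearMap.comp_id] at this
  have hexp : ExponentiallyContracting f := fun R => Y750.MY.incremental hreg h1.global hE hG R
  refine ⟨hexp, fun h2 t₀ h0 => ?_⟩
  have hzero : IsSolution f t₀ (fun _ => (0 : E)) := by
    intro t ht
    simp only [h2 t (h0.trans ht)]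
    exact hasDerivWithinAt_const _ _ _
  -- the bound for solutions starting in a ball
  have key : ∀ R : ℝ, 0 ≤ R → ∃ C γ : ℝ, 0 < C ∧ 0 < γ ∧ ∀ x, IsSolution f t₀ x → ‖x t₀‖ ≤ R →
      ∀ t, t₀ ≤ t → ‖x t‖ ≤ C * Real.exp (-γ * (t - t₀)) * ‖x t₀‖ := by
    intro R hR
    obtain ⟨K, γ, ε, hK, hε, hεγ, h⟩ := hexp R
    refine ⟨K * Real.exp (ε * t₀), γ, by positivity, lt_of_le_of_lt hε hεγ,
      fun x hx hxR t ht => ?_⟩
    have := h t₀ h0 x _ hx hzero hxR (by simpa using hR) t ht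
    simp only [sub_zero] at this
    refine this.trans (le_of_eq ?_)
    rw [Real.exp_add]; ring
  constructor
  · intro η hη
    obtain ⟨C, γ, hC, hγ, h⟩ := key 1 zero_le_one
    refine ⟨min 1 (η / (C + 1)), by positivity, fun x hx hx0 t ht => ?_⟩
    have h4 := h x hx (hx0.le.trans (min_le_left _ _)) t ht
    have h5 : Real.exp (-γ * (t - t₀)) ≤ 1 := Real.exp_le_one_iff.mpr (by nlinarith)
    have h6 : ‖x t₀‖ < η / (C + 1) := hx0.trans_le (min_le_right _ _)
    rw [lt_div_iff₀ (by positivity)] at h6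
    calc ‖x t‖ ≤ C * Real.exp (-γ * (t - t₀)) * ‖x t₀‖ := h4
      _ ≤ C * 1 * ‖x t₀‖ := by gcongr
      _ ≤ ‖x t₀‖ * (C + 1) := by nlinarith [norm_nonneg (x t₀)]
      _ < η := h6
  · intro x hx
    obtain ⟨C, γ, hC, hγ, h⟩ := key ‖x t₀‖ (norm_nonneg _)
    rw [tendsto_zero_iff_norm_tendsto_zero]
    have hlim : Tendsto (fun t => C * Real.exp (-γ * (t - t₀)) * ‖x t₀‖) atTop (𝓝 0) := by
      have h4 : Tendsto (fun t : ℝ => -γ * (t - t₀)) atTop atBot := by
        have h5 : Tendsto (fun t : ℝ => t - t₀) atTop atTop :=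
          tendsto_atTop_add_const_right _ _ tendsto_id
        exact h5.const_mul_atTop_of_neg (by linarith)
      simpa using ((Real.tendsto_exp_atBot.comp h4).const_mul C).mul_const ‖x t₀‖
    refine squeeze_zero' (Eventually.of_forall fun t => norm_nonneg _) ?_ hlim
    filter_upwards [eventually_ge_atTop t₀] with t ht using h x hx le_rfl t ht

end Pool.Agent.Results.MP_1775bc_an.ExponentialContraction
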