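import Pool.Agent.Y750.MY.D

/-!
# Markus-Yamabe for nonautonomous systems: the alternative at a growth rate outside the spectra

`E` is a finite-dimensional real normed space. From `Pool.Agent.TH339.MY` we use

* `PiecewiseContinuous g`: off a set `D` which is finite in every bounded interval, `g` is
  continuous on `[0,∞)`, and all one-sided limits of `g` exist;
* `IsEvolution A T`: `T(t,s) v = v + ∫_s^t A(u) T(u,s) v du` with `t ↦ T(t,s) v` continuous;
* `IsSolution f t₀ x`: `x' = f(t,x)` on `[t₀,∞)`.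

Idea of the proof. The difference of two solutions `x`, `y` satisfies
`(x-y)' = (∫_0^1 Jf(t, y + r (x - y)) dr) (x - y)`. If `r` runs through `[0,1)` faster and faster one
obtains a piecewise continuous curve `ω` between `x` and `y` such that `x - y` is shadowed by a
solution `T(t,t₀) w` of the linearization along `ω`, with an error which decays as fast as we
please.
-/

set_option autoImplicit false

namespace Pool.Agent.Results.MP_1775bc_an.SpectralAlternative

open Set Filter Topology Pool.Agent.TH339.MY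

variable {E : Type*} [NormedAddCommGroup E] [NormedSpace ℝ E]

/-- The system `x' = A(t) x`, with piecewise continuous `A`, has a nonuniform exponential
dichotomy on `[0,∞)` with the projections `P(t)`. -/
def HasDichotomy (A : ℝ → E →L[ℝ] E) (P : ℝ → E →L[ℝ] E) : Prop :=
  PiecewiseContinuous A ∧ ∃ T : ℝ → ℝ → E →L[ℝ] E, IsEvolution A T ∧
    (∀ t, 0 ≤ t → P t ∘L P t = P t) ∧
    (∀ t s, 0 ≤ t → 0 ≤ s → T t s ∘L P s = P t ∘L T t s) ∧
    ∃ K γ ε : ℝ, 1 ≤ K ∧ 0 ≤ ε ∧ ε < γ ∧
      (∀ t s, 0 ≤ s → s ≤ t → ‖T t s ∘L P s‖ ≤ K * Real.exp (-γ * (t - s) + ε * s)) ∧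
      (∀ t s, 0 ≤ t → t ≤ s →
        ‖T t s ∘L (ContinuousLinearMap.id ℝ E - P s)‖ ≤ K * Real.exp (-γ * (s - t) + ε * s))

/-- (G1): `f` is continuous on `[0,∞) × E`, `C¹` in `x`, and all forward solutions are global. -/
structure G1 (f : ℝ → E → E) : Prop where
  continuousOn : ContinuousOn (Function.uncurry f) (Ici 0 ×ˢ univ)
  contDiff : ∀ t, 0 ≤ t → ContDiff ℝ 1 (f t)
  global : ∀ t₀, 0 ≤ t₀ → ∀ x₀, ∃ x : ℝ → E, x t₀ = x₀ ∧ IsSolution f t₀ x

/-- `λ` is in none of the nonuniform spectra `Σ⁺(Jf(t,ω(t)))`: for every piecewise continuous `ω`,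
the system `y' = (Jf(t,ω(t)) - λ I) y` has some nonuniform exponential dichotomy. -/
def NotInSpectra (f : ℝ → E → E) (l : ℝ) : Prop :=
  ∀ ω : ℝ → E, PiecewiseContinuous ω →
    ∃ P, HasDichotomy (fun t => fderiv ℝ (f t) (ω t) - l • ContinuousLinearMap.id ℝ E) P

/-- Any two solutions converge to each other faster than `e^{λt}` or diverge faster than
`e^{λt}`, exponentially. -/
def Alternative (f : ℝ → E → E) (l : ℝ) : Prop :=
  ∀ t₀, 0 ≤ t₀ → ∀ x y : ℝ → E, IsSolution f t₀ x → IsSolution f t₀ y →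
    (∃ C γ : ℝ, 0 < γ ∧ ∀ t, t₀ ≤ t → ‖x t - y t‖ ≤ C * Real.exp ((l - γ) * t)) ∨
    (∃ c γ : ℝ, 0 < c ∧ 0 < γ ∧ ∀ᶠ t in atTop, c * Real.exp ((l + γ) * t) ≤ ‖x t - y t‖)

lemma reg0 [FiniteDimensional ℝ E] {f : ℝ → E → E} (h1 : G1 f)
    (h : ∀ ω : ℝ → E, PiecewiseContinuous ω →
      PiecewiseContinuous (fun t => fderiv ℝ (f t) (ω t))) : Y750.MY.Reg0 f := by
  have hcs : CompleteSpace E := FiniteDimensional.complete ℝ E
  have hpwc : ∀ ω : ℝ → E, Continuous ω → PiecewiseContinuous ω := by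
    intro ω hω
    exact ⟨∅, by simp, fun t _ _ => hω.continuousWithinAt,
      fun t _ => ⟨ω t, (hω.tendsto t).mono_left nhdsWithin_le_nhds⟩,
      fun t _ => ⟨ω t, (hω.tendsto t).mono_left nhdsWithin_le_nhds⟩⟩
  refine ⟨h1.continuousOn, h1.contDiff, ?_, h⟩
  apply jacobian_continuous h1.continuousOn h1.contDiff
  · intro ω hω t ht
    obtain ⟨D, -, -, hr, -⟩ := h ω (hpwc ω hω)
    exact hr t ht
  · intro ω hω t ht
    obtain ⟨D, -, -, -, hl⟩ := h ω (hpwc ω hω)
    exact hl t ht

/-- If the real number `l` is in none of the nonuniform spectra of the linearizations of `f` along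
piecewise continuous curves, then any two solutions converge faster or diverge faster than
`e^{lt}`. -/
theorem result (E : Type*) [NormedAddCommGroup E] [NormedSpace ℝ E] [FiniteDimensional ℝ E]
    (f : ℝ → E → E) (h1 : G1 f) (l : ℝ) (hl : NotInSpectra f l) : Alternative f l := by
  intro t₀ h0 x y hx hy
  have hpw : ∀ ω : ℝ → E, PiecewiseContinuous ω →
      PiecewiseContinuous (fun t => fderiv ℝ (f t) (ω t)) := by
    intro ω hω
    obtain ⟨P, hA, -⟩ := hl ω hω
    have := Y750.MY.pwc_sub_const hA (-(l • ContinuousLinearMap.id ℝ E))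
    simpa using this
  apply Y750.MY.alternative (reg0 h1 hpw) l _ h0 hx hy
  intro ω hω
  obtain ⟨P, hA, T, hT, -, hc, h⟩ := hl ω hω
  exact ⟨T, P, hT, hc, h⟩

end Pool.Agent.Results.MP_1775bc_an.SpectralAlternative
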